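import Pool.Agent.Y169.CP.Pg2
import Pool.Agent.Y169.CP.Eff

/-!
# Effective non-vanishing for abelian covers of projective space branched along normal crossings

Let `F k`, `k = 0, ..., n`, be forms of degrees `d k` in `n + 1` variables whose zero sets in the
projective `n`-space are smooth hypersurfaces with normal crossings, and let `X` be a projective
manifold which is birational to an abelian cover of the projective space which is branched only along
these hypersurfaces: the function field `K` of `X` is generated by the affine coordinates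
`x (b + 1) / x 0` and by roots `z j`, `z j ^ (m j) = ∏ k, (F k (x) / x 0 ^ (d k)) ^ (a j k)`, where
`m j` divides `∑ k, a j k * d k`. (Covers which are branched along fewer hypersurfaces are included:
add general hyperplanes, with `a j k = 0`.)

The theorem: let `B` be at least `d k` for all `k` and at least the product of the `m j`. If `K_X` is
pseudo-effective then `P_T (X) ≠ 0` for some `1 ≤ T ≤ (n + 1)! * B ^ (n + 1)`. So pseudo-effectivity is
decided by finitely many plurigenera. It is also equivalent to the existence of a rational point `y`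
with `∑ k, d k * y k = ∑ k, (d k - 1)` and `∑ k, v k * y k ≥ 1` for all `Admissible` vectors `v`: these
are the vectors `v ≠ 0` of nonnegative integers, not all positive, with `m j ∣ ∑ k, a j k * v k` for all
`j`, the multiplicities of the hypersurfaces along the divisors over `X`.

Sections of `m K_X` and of `m K_X + A` are functions of `n = dim X` rational vector fields, with a
condition at all divisorial places of `K`, so that they are the sections on every smooth projective
model of `K`.
-/

set_option autoImplicit false

open FF MvPolynomial Pool.Agent.W602.GT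

namespace Pool.Agent.Results.MP_813db1_ag.NormalCrossingCovers

/-- The hypersurfaces `F k = 0` have normal crossings: at every point of the projective space the
gradients of the forms `F k` which vanish at this point are linearly independent. -/
def NormalCrossings {n : ℕ} (F : Fin (n + 1) → MvPolynomial (Fin (n + 1)) ℂ) : Prop :=
  ∀ x : Fin (n + 1) → ℂ, x ≠ 0 → LinearIndependent ℂ
    fun (k : {k // eval x (F k) = 0}) (l : Fin (n + 1)) => eval x (pderiv l (F k.1))

/-- The affine coordinates of the projective space. -/
noncomputable def affine {n : ℕ} {K : Type} [Field K] (x : Fin (n + 1) → K) (b : Fin n) : K :=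
  x b.succ / x 0

section

variable {n R : ℕ}

/-- The multiplicities which satisfy the divisibility conditions. -/
def Admissible (m : Fin R → ℕ) (a : Fin R → Fin (n + 1) → ℕ) (v : Fin (n + 1) → ℕ) : Prop :=
  v ≠ 0 ∧ (∃ k, v k = 0) ∧ ∀ j, m j ∣ ∑ k, a j k * v k

/-- The exponents of the regular forms. -/
def polyhedron (m : Fin R → ℕ) (a : Fin R → Fin (n + 1) → ℕ) (d : Fin (n + 1) → ℕ) :
    Set (Fin (n + 1) → ℚ) :=
  {y | ∑ k, (d k : ℚ) * y k = ∑ k, ((d k : ℚ) - 1) ∧
    ∀ v, Admissible m a v → 1 ≤ ∑ k, (v k : ℚ) * y k}

end

section sections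

/-- `ω` is a section of `m K_X + j A`: a rational section of the `m`-th power of the canonical
bundle (`IsPluri`: a function of `N` rational vector fields which is multiplied by `det B ^ m` under
a linear substitution `B`) whose order on the vector fields which are regular at `P` is at least `j`
times the order of one of the functions in `S`, for all prime divisors `P` over `X` (all divisorial
places `P` of `K`). Here `A` is the divisor which is generated by the finite set `S` of functions;
`A = 0` if `S = {1}`. -/
def IsSection {K : Type} [Field K] [Algebra ℂ K] (N : ℕ) (S : Finset K) (m j : ℕ)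
    (ω : (Fin N → Derivation ℂ K K) → K) : Prop :=
  IsPluri m ω ∧ ∀ P : Place ℂ K, Divisorial N P → ∀ D : Fin N → Derivation ℂ K K,
    (∀ c, DerReg P (D c)) → ω D = 0 ∨ ∃ s ∈ S, s ≠ 0 ∧ j * P.ord s ≤ P.ord (ω D)

variable (N : ℕ) (K : Type) [Field K] [Algebra ℂ K]

/-- `P_T (X) ≠ 0`: there is a nonzero section of `T K_X`. -/
def PlurigenusPos (T : ℕ) : Prop :=
  ∃ ω : (Fin N → Derivation ℂ K K) → K, ω ≠ 0 ∧ IsSection N {1} T 1 ω

/-- `K_X` is pseudo-effective: there is a divisor `A` such that for all `M` a positive multiple of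
`M K_X + A` is effective. -/
def Pseudoeffective : Prop :=
  ∃ S : Finset K, ∀ M : ℕ, ∃ j : ℕ, 1 ≤ j ∧ ∃ ω : (Fin N → Derivation ℂ K K) → K, ω ≠ 0 ∧
    IsSection N S (j * M) j ω

end sections

/-- **Effective non-vanishing.** Let `X` be a projective manifold birational to an abelian cover of the
projective `n`-space which is branched along `n + 1` hypersurfaces `F k = 0` with normal crossings,
and let `K` be the function field of `X`. Let `B` be at least the degrees `d k` and at least the product
of the exponents `m j`. Then `K_X` is pseudo-effective if and only if `P_T (X) ≠ 0` for some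
`1 ≤ T ≤ (n + 1)! * B ^ (n + 1)`, and if and only if the polyhedron is not empty. -/
theorem result (n R : ℕ) (hn : 1 ≤ n) (d : Fin (n + 1) → ℕ) (hd : ∀ k, 1 ≤ d k)
    (F : Fin (n + 1) → MvPolynomial (Fin (n + 1)) ℂ) (hF : ∀ k, (F k).IsHomogeneous (d k))
    (hs : NormalCrossings F) (m : Fin R → ℕ) (hm : ∀ j, 1 ≤ m j) (a : Fin R → Fin (n + 1) → ℕ)
    (hdiv : ∀ j, m j ∣ ∑ k, a j k * d k)
    (K : Type) [Field K] [Algebra ℂ K] (x : Fin (n + 1) → K) (hx0 : x 0 ≠ 0)
    (hbas : IsTranscendenceBasis ℂ (affine x)) (z : Fin R → K)
    (hz : ∀ j, z j ^ m j = ∏ k, (aeval x (F k) / x 0 ^ d k) ^ a j k)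
    (hgen : IntermediateField.adjoin ℂ (Set.range (affine x) ∪ Set.range z) = ⊤)
    (B : ℕ) (hdB : ∀ k, d k ≤ B) (hmB : ∏ j, m j ≤ B) :
    (Pseudoeffective n K ↔ ∃ T, 1 ≤ T ∧ T ≤ (n + 1).factorial * B ^ (n + 1) ∧
      PlurigenusPos n K T) ∧
    (Pseudoeffective n K ↔ (polyhedron m a d).Nonempty) := by
  obtain ⟨e, rfl⟩ : ∃ e, n = e + 1 := ⟨n - 1, by omega⟩
  have hp : polyhedron m a d = Pool.Agent.Y169.TH.PiA m a d := by
    unfold polyhedron Pool.Agent.Y169.TH.PiA
    rw [Finset.sum_sub_distrib]
    simp only [Finset.sum_const, Finset.card_univ, Fintype.card_fin, nsmul_eq_mul, mul_one]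
    rfl
  rw [hp]
  obtain ⟨h1, h2, -⟩ := Pool.Agent.Y169.TH.main hx0 hbas hd hF hs hm hz hdiv hgen
  refine ⟨⟨fun h => Pool.Agent.Y169.CP.pg2 hx0 hbas hd hF hs hm hz hdiv hgen (h1.1 h) hdB hmB, ?_⟩,
    h1⟩
  rintro ⟨T, hT, -, hω⟩
  exact h1.2 (h2.1 (Pool.Agent.Y169.CP.eff_iff.1 ⟨T, hT, hω⟩))

end Pool.Agent.Results.MP_813db1_ag.NormalCrossingCovers
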