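import Pool.Agent.Y184.NT.Dom
import Pool.Agent.Y944.NT.NLG

/-!
# Varieties with correspondences of small degree to a variety with positive canonical bundle

Let `V` be a projective variety of dimension `n ≥ 1`, arbitrarily singular, in a projective space
with hyperplane class `H` such that `K_V - m H` is effective (on a resolution of `V`): there is a
canonical form `ω ≠ 0` such that `A ω` is a regular canonical form for all forms `A` of degree `m`.
Examples are the smooth complete intersections of type `(d_1, ..., d_c)` in projective
`(n + c)`-space, with `m = d_1 + ... + d_c - n - c - 1`.

Let `W` be any smooth projective variety of dimension `n`, and let `Γ` be a correspondence between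
`V` and `W`, an irreducible subvariety of `V × W` which dominates both factors, of degree `r` over
`W`. For instance `Γ` can be the graph of a dominant rational map `V ⇢ W` of degree `r`. The
theorem: if `r ≤ m` then `W` is of general type; if `r ≤ m + 1` then at least `p_g(W) > 0`. (For a
smooth plane quartic `V`, with `m = 1`, and a double cover of an elliptic curve `V → W` the degree
is `m + 1`, so that the first bound is sharp.)

Proof: the traces of the canonical forms `A ω` to `W` are regular canonical forms of `W`, and one of
them is not zero if `r ≤ m + 1` since `r` points of a projective space are separated by the forms of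
degree `r - 1`. Suppose that `r ≤ m` and that the ratios of the traces do not generate a field of
transcendence degree `n`. Then they are constant along a rational vector field `D` on `W`. It
defines tangent vectors at the points of the fibres of `Γ`, and the scheme of length `2 r` obtained
satisfies a relation for all forms of degree `m`; by a Cayley–Bacharach argument for double points
it is contained in a line. This line is constant along `D`, so `V` contains a family of lines which
covers it, contradicting `p_g(V) > 0`.

The function-field language of the starting repository is used. `M`, `K` and `L` are the function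
fields of `V`, `Γ` and `W`; that `Γ` is contained in `V × W` means that `K` is generated by `L` and
the coordinates of the generic point `x` of `V`. A canonical form (`IsPluri 1`) on a variety of
dimension `n` is a function of `n` rational vector fields; it is regular at the prime divisor `P`
(`Place`, `Divisorial`, `RegAt`) if its value on vector fields which are regular at `P` is regular
at `P`. `GeneralType ℂ L n` says that `W` is of general type: the ratios of its pluricanonical forms
of some degree contain `n` algebraically independent functions (`Pool/Agent/W602/GT/Defs.lean`).
-/

set_option autoImplicit false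

open FF Pool.Agent.W602.GT

namespace Pool.Agent.Results.MP_813db1_ag.SmallDegreeCorrespondences

section

variable {M : Type} [Field M] [Algebra ℂ M]

/-- `x` is the generic point of a variety `V` of dimension `n` in projective `N`-space, with
function field `M`; the homogeneous coordinates are normalised by `x 0 = 1`. -/
structure IsGenericPoint (n : ℕ) {N : ℕ} (x : Fin (N + 1) → M) : Prop where
  one : x 0 = 1
  gen : IntermediateField.adjoin ℂ (Set.range x) = ⊤
  dim : Algebra.trdeg ℂ M = n

/-- `K_V - m H` is effective: `ω` is a canonical form, not zero, and the canonical forms `A(x) ω`
are regular, for all monomials (hence for all forms) `A` of degree `m`. -/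
structure Positive (m : ℕ) {n N : ℕ} (x : Fin (N + 1) → M)
    (ω : (Fin n → Derivation ℂ M M) → M) : Prop where
  pluri : IsPluri 1 ω
  ne : ∃ D, ω D ≠ 0
  reg : ∀ (f : Fin m → Fin (N + 1)) (P : Place ℂ M), Divisorial n P →
    RegAt P (fun D => (∏ k, x (f k)) * ω D)

end

/-- **Correspondences of small degree.** Let `M` be the function field of a projective variety `V`
of dimension `n ≥ 1` such that `K_V - m H` is effective, let `L` be the function field of a smooth
projective variety `W` and `K` the function field of a subvariety `Γ` of `V × W` which dominates
both factors and has degree `r` over `W`. If `r ≤ m` then `W` is of general type; if `r ≤ m + 1`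
then `p_g(W) > 0`: there is a regular canonical form on `W` which is not zero. -/
theorem result {n m N : ℕ} (hn : 1 ≤ n) {M : Type} [Field M] [Algebra ℂ M] {x : Fin (N + 1) → M}
    {ω : (Fin n → Derivation ℂ M M) → M} (hx : IsGenericPoint n x) (hω : Positive m x ω)
    (K L : Type) [Field K] [Field L] [Algebra ℂ K] [Algebra ℂ L] [Algebra M K] [Algebra L K]
    [IsScalarTower ℂ M K] [IsScalarTower ℂ L K] [FiniteDimensional M K] [FiniteDimensional L K]
    (hK : IntermediateField.adjoin L (Set.range fun j => algebraMap M K (x j)) = ⊤) :
    (Module.finrank L K ≤ m → GeneralType ℂ L n) ∧
    (Module.finrank L K ≤ m + 1 → ∃ θ : (Fin n → Derivation ℂ L L) → L, IsPluri 1 θ ∧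
      (∀ P : Place ℂ L, Divisorial n P → RegAt P θ) ∧ ∃ D, θ D ≠ 0) := by
  classical
  have hessM : Algebra.EssFiniteType ℂ M := by
    rw [← IntermediateField.fg_top_iff]
    exact ⟨Finset.univ.image x, by
      rw [Finset.coe_image, Finset.coe_univ, Set.image_univ, hx.gen]⟩
  have hNLG : Pool.Agent.Y184.NT.StNLG := Pool.Agent.Y944.NT.stNLG
    (Pool.Agent.Y297.NT.t_Pull Pool.Agent.Y71.NT.t_abh) Pool.Agent.Y929.NT.t_W0
    Pool.Agent.Y888.NT.stDer
  exact (Pool.Agent.Y184.NT.dom (L := L) (K := K) hNLG hn hx.dim hx.one hx.gen hω.pluri hω.ne
    hω.reg hK).symm

end Pool.Agent.Results.MP_813db1_ag.SmallDegreeCorrespondences
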