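import Pool.Agent.Y191.CycNv

/-!
# Nonvanishing for fibre products of families of superelliptic curves

Let `X` be a projective manifold (or a projective variety with canonical singularities), `X ⇢ P^v` a
rational map whose image `Y`, any subvariety of `P^v`, has dimension `p`, and `Y'` the normalization
of `Y` in `X`: its function field `F` is the algebraic closure of `ℂ(Y)` in `ℂ(X)`. Suppose:

* (the fibres) `X` is birational to the fibre product over `Y'` of `e` arbitrary cyclic covers of
  `Y' × P^1`, that is `ℂ(X)` is generated over `F` by `x j`, `z j`, `j < e = dim X - p`, the `x j` are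
  algebraically independent over `F` and

  `z j ^ m j = c j * ∏ k, g j k (x j) ^ a j k`, `m j ≥ 1`, `a j k ≥ 0`, `c j ≠ 0` in `F`,

  where the `g j k` are polynomials over `F`, `g j k` of degree `d j k`, square free and pairwise
  without common roots (for given `j`);
* (the base) `ℓ i = 0`, `i < q`, are hyperplanes in general position which do not contain `Y`, such
  that the points `ℓ i` impose independent conditions on the forms of degree `D`, with weights
  `wt i ≥ 0` whose sum is at least `(p + 1) γ`, `γ = (v - p + D).choose (v - p)`; if `e i` is the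
  multiplicity of the hyperplane `ℓ i = 0` at the prime divisor `P` of `X` (for the divisors without
  fixed component which the map defines) then `min (#{i | e i ≠ 0}) γ ≤ ∑ i, (1 - wt i) e i`. (The
  sum of the weights may be equal to `(p + 1) γ`; for instance, if `Y = P^p`, `γ = 1`, the orbifold
  base may be of Calabi-Yau type.)

Let `W j = ∑ k, d j k * (1 - gcd (m j, a j k) / m j) + 1 - gcd (m j, ∑ k, a j k * d j k) / m j`; if `C j`
is the curve over `F` given by the `j`-th equation, of genus `g j`, and of degree `n j` over the line,
then `2 g j - 2 = n j * (W j - 2)`. Then the canonical divisor of `X` is pseudo-effective if and only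
if `κ(X) ≥ 0`, if and only if `W j ≥ 2` (`g j ≥ 1`) for all `j`, and then `κ(X)` is at least the number
of the `j` with `W j > 2` (`g j ≥ 2`). The moduli of the curves may vary.

The language and the definitions of `Pool.Agent.Y172` are used: `X` is given by the homogeneous
coordinates `y` of its generic point, with values in the function field `K` of `X`; the prime divisors
of `X` are places `P` of `K`, `P.ord` is the order along `P`. `numericalDim` is `⊥` if and only if
`m K_X + A` has no sections for almost all `m`.

Proof: over the finite extension of `ℂ(X)` generated by the roots of the `g j k` the products of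
powers of determinants of logarithmic derivatives of the `x j - b`, `b` a root, are pluricanonical
forms along the fibres, regular at all divisors, vertical ones included. The extension is unramified
at the horizontal divisors, and at the vertical divisors the vector fields along the fibres are
logarithmic, so the forms descend to `X`: symmetric functions of the conjugates (`cyc_low`). Together
with the forms of the base of `Pool.Agent.Y191` they give the lower bound. If `W j < 2` for some `j`
then the traces to the field of `Y' × P^1 × ... × P^1` of the sections of `m K_X + A` vanish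
(`cyc_can`).
-/

set_option autoImplicit false

open FF Pool.Agent.W602.GT Pool.Agent.Y172 Pool.Agent.Y191

namespace Pool.Agent.Results.MP_813db1_ag.SuperellipticNonvanishing

section

variable {K : Type} [Field K] [Algebra ℂ K] {N : ℕ}

/-- `X` is a projective variety of dimension `n` with canonical singularities, `y` is its generic
point. -/
def IsCanonicalVariety (y : Fin (N + 1) → K) (n : ℕ) : Prop :=
  NormalModel y ∧ Algebra.trdeg ℂ K = n ∧ Canonical y n

/-- The `b j` are the coordinates of a rational map whose image has dimension `p` and is not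
contained in one of the hyperplanes `ℓ i = 0`. -/
def IsMap {v q : ℕ} (ℓ : Fin q → Fin (v + 1) → ℂ) (b : Fin (v + 1) → K) (p : ℕ) : Prop :=
  (∀ i, lf (ℓ i) b ≠ 0) ∧ (∃ j, b j ≠ 0) ∧ Algebra.trdeg ℂ (RF ℂ b) = p

/-- Let `F` be the algebraic closure of `L` in `K`. The field `K` is generated over `F` by elements
`x j`, `z j` with `z j ^ m j = c j * ∏ k, g j k (x j) ^ a j k`, where the `x j` are algebraically
independent over `F`, `m j ≥ 1`, `c j` is a nonzero element of `F`, and the `g j k` are polynomials
over `F` of degree `d j k`, square free and pairwise without common roots for given `j`. -/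
def CyclicFibres (L : IntermediateField ℂ K) {e : ℕ} (m s : Fin e → ℕ)
    (d a : ∀ j, Fin (s j) → ℕ) : Prop :=
  ∃ (x z c : Fin e → K) (g : ∀ j, Fin (s j) → Polynomial (acl ℂ (L : Set K))),
    CycData (acl ℂ (L : Set K)) x z m s g a c ∧ ∀ j k, (g j k).natDegree = d j k

end

/-- `W = ∑ k, d k * (1 - gcd (m, a k) / m) + 1 - gcd (m, ∑ k, a k * d k) / m` -/
def weight (m : ℕ) {s : ℕ} (d a : Fin s → ℕ) : ℚ :=
  ∑ k, d k * (1 - (m.gcd (a k) : ℚ) / m) + (1 - (m.gcd (∑ k, a k * d k) : ℚ) / m)

/-- If all `W j` are at least `2` then the Kodaira dimension of `X` is at least the number of the `j`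
with `W j > 2`; otherwise the Kodaira dimension and the numerical dimension (with respect to any
effective divisor `A`) are `-∞`. -/
def Nonvanishing {K : Type} [Field K] [Algebra ℂ K] {N : ℕ} (y : Fin (N + 1) → K) (n : ℕ) {e : ℕ}
    (W : Fin e → ℚ) : Prop :=
  ((∀ j, 2 ≤ W j) →
    (((Finset.univ.filter fun j => 2 < W j).card : ℕ) : WithBot ℕ) ≤ kodairaDim y n 0) ∧
  ((∃ j, W j < 2) → kodairaDim y n 0 = ⊥ ∧ ∀ A, Effective y A → numericalDim y n 0 A = ⊥)

theorem wsum_eq {K : Type} [Field K] [Algebra ℂ K] {F : IntermediateField ℂ K} {e : ℕ}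
    {m s : Fin e → ℕ} {g : ∀ j, Fin (s j) → Polynomial F} {a d : ∀ j, Fin (s j) → ℕ}
    (hd : ∀ j k, (g j k).natDegree = d j k) (j : Fin e) :
    wsum m s g a j = weight (m j) (d j) (a j) := by
  unfold wsum weight wtc
  simp only [hd]

/-- the number of large weights -/
theorem exists_idx {e : ℕ} (W : Fin e → ℚ) :
    ∃ κ : Fin (Finset.univ.filter fun j => 2 < W j).card → Fin e, Function.Injective κ ∧
      ∀ i, 2 < W (κ i) := by
  classical
  let φ := (Finset.univ.filter fun j => 2 < W j).equivFin
  exact ⟨fun i => (φ.symm i : Fin e), fun a b hab => φ.symm.injective (Subtype.ext hab),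
    fun i => (Finset.mem_filter.1 (φ.symm i).2).2⟩

/-- **Nonvanishing.** Let `X` be a projective variety with canonical singularities of dimension
`p + e`, `b` the coordinates of a rational map `X ⇢ P^v` whose image `Y` has dimension `p`, and let
`X` be birational to a fibre product of `e` cyclic covers as in `CyclicFibres`, over the field
`RF ℂ b` of `Y`. Let `ℓ i = 0` be hyperplanes in general position which do not contain the image and
impose independent conditions on the forms of degree `D`, with weights `wt i ≥ 0` whose sum is at
least `(p + 1) * γ`, where `γ = (v - p + D).choose (v - p)`, and let the multiplicities `e i` satisfy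
`min (#{i | e i ≠ 0}) γ ≤ ∑ i, (1 - wt i) e i` at all prime divisors of `X`. Then `κ(X)` is at least
the number of the `j` with `W j > 2` if `W j ≥ 2` for all `j`, and otherwise `κ(X) = -∞` and `K_X` is
not pseudo-effective. -/
theorem result {v q : ℕ} :
    ∀ D p : ℕ, 0 < D → ∀ ℓ : Fin q → Fin (v + 1) → ℂ, Independent D ℓ → GeneralPosition ℓ →
      v + 1 ≤ q → ∀ (K : Type) [Field K] [Algebra ℂ K] (N e : ℕ) (m s : Fin e → ℕ)
      (d a : ∀ j, Fin (s j) → ℕ) (y : Fin (N + 1) → K), IsCanonicalVariety y (p + e) →
      ∀ b : Fin (v + 1) → K, IsMap ℓ b p → ∀ wt : Fin q → ℚ, (∀ i, 0 ≤ wt i) →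
      (((p + 1) * (v - p + D).choose (v - p) : ℕ) : ℚ) ≤ ∑ i, wt i →
      (∀ P, IsPrimeDivisor y P → ∀ (c : ℤ) (e : Fin q → ℕ), OrdData P ℓ b c e →
        ((min (Finset.univ.filter fun i => e i ≠ 0).card ((v - p + D).choose (v - p)) : ℕ) : ℚ) ≤
          ∑ i, (1 - wt i) * e i) →
      CyclicFibres (RF ℂ b) m s d a →
      Nonvanishing y (p + e) fun j => weight (m j) (d j) (a j) := by
  rintro D p hD ℓ hI hg hq K _ _ N e m s d a y hy b ⟨hl, hb, htr⟩ wt hwt hlt hmult
    ⟨x, z, c, g, hc, hd⟩
  have h1 := (cyc_can hy.1 hy.2.1 hy.2.2 (acl_closed (RF ℂ b : Set K)) hc).1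
  simp only [wsum_eq hd] at h1
  refine ⟨fun hws => ?_, h1⟩
  obtain ⟨κ, hκ, hκs⟩ := exists_idx fun j => weight (m j) (d j) (a j)
  obtain ⟨M, hM, θ, hθ, hne⟩ := cyc_low (N := p + e) hc
    (fun j => by rw [wsum_eq hd]; exact hws j) hκ (fun i => by rw [wsum_eq hd]; exact hκs i)
    {P | IsPrimeDivisor y P}
  refine cyc_nv hy.1 hy.2.1 hy.2.2 (acl_closed (RF ℂ b : Set K)) hc (by omega)
    (small_fib (δ₁ := fun _ => 0) (δ := fun _ => 0) hD hI hg hq hl hb htr hy.2.1 hwt hlt
    (fun P _ => by simp) (fun P hP _ c e ho => ?_) hM hθ hne).1
  have h3 := hmult P hP c e ho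
  have h4 := (Rat.cast_le (K := ℝ)).2 h3
  rw [mul_zero, zero_add]
  push_cast at h4 ⊢
  exact h4

end Pool.Agent.Results.MP_813db1_ag.SuperellipticNonvanishing
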